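import Pool.Agent.MWC.StmtsB
import Pool.Agent.Helper65_MWC.Checks

/-!
# MWC row CBD: four clauses of (a') (MP_23468a_al)
-/

set_option autoImplicit false

namespace Pool.Agent.MWC.H69

open Pool.Agent.Helper14_MV Pool.Agent.Helper2_MV Pool.Agent.MVO Pool.Agent.MWL Pool.Agent.MWA
open Pool.Agent.MWC Pool.Agent.MWC.H65

theorem all_one {n : ℕ} {β : FIC} {r : Bool} {L : List Bit} {κ : Bit} (h : L = [κ])
    (hb : HB r n β κ) : ∀ μ ∈ L, HB r n β μ := by
  intro μ hμ
  rw [h, List.mem_singleton] at hμ
  rw [hμ]
  exact hb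

theorem cbd (hARB : ArbStmt) (hTYC : TycStmt) (hBTL : BtlStmt) (hMST : MstStmt) : CbdStmt := by
  intro n β hβ
  obtain ⟨hiso, hcl, hmd, hlr⟩ := hβ
  obtain ⟨aE, aG, aG0, aD, aJ, aJ2⟩ := hARB true n β hlr
  have hJ2 : ¬ HB true n β (Bit.J 2) := aJ2 hiso
  obtain ⟨_, B2, B3⟩ := hBTL true n β hiso hcl hlr
  have T := hTYC true n β hiso hcl hlr
  have M := hMST true n β ⟨hiso, hcl, hmd, hlr⟩
  refine ⟨?_, ?_, ?_, ?_⟩
  · intro h21 h02
    by_contra hcon
    rw [not_or] at hcon
    obtain ⟨hJ3, hX⟩ := hcon
    have hD0 : ¬ HB true n β (Bit.D 0) := by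
      intro h
      have t := T 2 2 2 [0, 2, 1] [0, 2, 2] [1, 0, 1] (le_refl 2) (le_refl 2)
        (by decide +kernel) (by decide +kernel) (all_one (by decide +kernel) h)
        (by decide +kernel)
      have e := B2 1 2 1 2 [1, 1] [0, 2] [1, 0, 1] [0, 2, 2] [0, 2] (by decide +kernel)
        (le_refl 1) (by decide +kernel) (by decide +kernel) (by decide +kernel)
        (by decide +kernel) (by decide +kernel) (by decide +kernel) (by decide +kernel) h02
      exact hX (B3 _ _ _ _ (t.2 (B3 _ _ _ _ e)))
    have hE : ¬ HB true n β Bit.E := by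
      intro h
      have t := T 2 2 0 [0, 2, 1] [2, 2, 1] [1, 0, 1] (le_refl 2) (by omega)
        (by decide +kernel) (by decide +kernel) (all_one (by decide +kernel) h)
        (by decide +kernel)
      have e := B2 1 2 1 2 [1, 1] [2, 1] [1, 0, 1] [2, 2, 1] [0, 2] (by decide +kernel)
        (le_refl 1) (by decide +kernel) (by decide +kernel) (by decide +kernel)
        (by decide +kernel) (by decide +kernel) (by decide +kernel) (by decide +kernel) h21
      exact hX (B3 _ _ _ _ (t.2 (B3 _ _ _ _ e)))
    refine M _ _ _ _ _ _ _ _ _ _ _ _ _ cB11 ?_ ?_ ?_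
    · intro μ hμ
      simp at hμ
    · intro μ hμ
      simp only [List.mem_cons, List.not_mem_nil, or_false] at hμ
      rcases hμ with rfl | rfl | rfl | rfl
      · exact hJ3
      · exact hJ2
      · exact hD0
      · exact hE
    · intro q hq
      rw [List.mem_singleton] at hq
      subst hq
      exact hX
  · intro h02
    by_contra hcon
    rw [not_or] at hcon
    obtain ⟨hJ3, hX⟩ := hcon
    have hD0 : ¬ HB true n β (Bit.D 0) := by
      intro h
      have t := T 2 2 2 [2, 0, 1] [2, 0, 2] [0, 1, 1] (le_refl 2) (le_refl 2)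
        (by decide +kernel) (by decide +kernel) (all_one (by decide +kernel) h)
        (by decide +kernel)
      have e := B2 1 2 1 2 [1, 1] [0, 2] [0, 1, 1] [2, 0, 2] [1, 2] (by decide +kernel)
        (le_refl 1) (by decide +kernel) (by decide +kernel) (by decide +kernel)
        (by decide +kernel) (by decide +kernel) (by decide +kernel) (by decide +kernel) h02
      exact hX (t.2 (B3 _ _ _ _ e))
    refine M _ _ _ _ _ _ _ _ _ _ _ _ _ cB12 ?_ ?_ ?_
    · intro μ hμ
      simp at hμ
    · intro μ hμ
      simp only [List.mem_cons, List.not_mem_nil, or_false] at hμ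
      rcases hμ with rfl | rfl | rfl
      · exact hJ3
      · exact hJ2
      · exact hD0
    · intro q hq
      rw [List.mem_singleton] at hq
      subst hq
      exact hX
  · intro h21
    by_contra hcon
    rw [not_or] at hcon
    obtain ⟨hD1, hX⟩ := hcon
    have hD0 : ¬ HB true n β (Bit.D 0) := fun h => hD1 (aD 0 h)
    have hF : ¬ HB true n β Bit.F := by
      intro h
      have t := T 3 3 1 [2, 0, 2, 1] [2, 2, 2, 1] [0, 1, 0, 1] (le_refl 3) (by omega)
        (by decide +kernel) (by decide +kernel) (all_one (by decide +kernel) h)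
        (by decide +kernel)
      have e := B2 1 3 1 3 [1, 1] [2, 1] [0, 1, 0, 1] [2, 2, 2, 1] [1, 3] (by decide +kernel)
        (le_refl 1) (by decide +kernel) (by decide +kernel) (by decide +kernel)
        (by decide +kernel) (by decide +kernel) (by decide +kernel) (by decide +kernel) h21
      exact hX (B3 _ _ _ _ (t.2 (B3 _ _ _ _ e)))
    have hE : ¬ HB true n β Bit.E := fun h => hF (aE h)
    refine M _ _ _ _ _ _ _ _ _ _ _ _ _ cB13 ?_ ?_ ?_
    · intro μ hμ
      simp at hμ
    · intro μ hμ
      simp only [List.mem_cons, List.not_mem_nil, or_false] at hμ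
      rcases hμ with rfl | rfl | rfl | rfl
      · exact hD1
      · exact hD0
      · exact hE
      · exact hF
    · intro q hq
      rw [List.mem_singleton] at hq
      subst hq
      exact hX
  · by_contra hcon
    rw [not_or] at hcon
    obtain ⟨hD1, hX⟩ := hcon
    have hD0 : ¬ HB true n β (Bit.D 0) := fun h => hD1 (aD 0 h)
    refine M _ _ _ _ _ _ _ _ _ _ _ _ _ cB14 ?_ ?_ ?_
    · intro μ hμ
      simp at hμ
    · intro μ hμ
      simp only [List.mem_cons, List.not_mem_nil, or_false] at hμ
      rcases hμ with rfl | rfl | rfl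
      · exact hD1
      · exact hD0
      · exact hJ2
    · intro q hq
      rw [List.mem_singleton] at hq
      subst hq
      exact hX

end Pool.Agent.MWC.H69
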